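import Mathlib
import Pool.Agent.H843.BT.Main

/-!
# MP_e84edf_an: subnormal block Toeplitz operators with `Φ = B Φ*`

The definitions `IsLinfty`, `IsHinfty`, `IsBlaschkePotapov`, `HardySp`, `IsToeplitz` are those of
`Pool/Agent/H612R3/BpDefs.lean`; the point `t` of `ℝ/ℤ` stands for `ζ = exp(2πit) = fourier 1 t`.

For every `n ≥ 2` the answer to the question is negative: there are a symbol `Φ ∈ L^∞_{M_n}` (a
trigonometric polynomial) and a finite Blaschke-Potapov product `B` with `Φ = B Φ*` on the circle,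
such that `T_Φ` is subnormal, but neither normal nor analytic. The example is
`Φ = (ζ + ζ⁻¹) P + ζ (1 - P)`, `B = P + ζ² (1 - P)` with a coordinate projection `P`.
-/

set_option autoImplicit false
open scoped Matrix
open Pool.Agent.Helper917.Hardy
open Pool.Agent.H612R3.BpDefs

namespace Pool.Agent.Results.MP_e84edf_an.NotNormalNotAnalytic

theorem result (n : ℕ) (hn : 2 ≤ n) :
    ∃ (Φ : Circ → Matrix (Fin n) (Fin n) ℂ) (B : ℂ → Matrix (Fin n) (Fin n) ℂ)
      (T : HardySp n →L[ℂ] HardySp n),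
      IsLinfty Φ ∧ IsToeplitz Φ T ∧ Pool.Agent.H843.BT.IsSubnormal T ∧ IsBlaschkePotapov B ∧
      (∀ t : Circ, Φ t = B (fourier 1 t) * (Φ t)ᴴ) ∧ ¬ IsStarNormal T ∧ ¬ IsHinfty Φ :=
  Pool.Agent.H843.BT.main n hn

end Pool.Agent.Results.MP_e84edf_an.NotNormalNotAnalytic
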